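import Pool.Agent.H34.HYP.NON
import Pool.Agent.H6.HYP.SPC
import Pool.Agent.H70.HYP.NMU
import Pool.Agent.H70.HYP.UNI
import Pool.Agent.H76.HYP.DEC
import Pool.Agent.H85.HYP.EVN
import Pool.Agent.H94.HYP.GDT

/-!
# HYP: module QSP

The form of a class of given type is split except for type `(1, 1)`.
-/

set_option autoImplicit false

namespace Pool.HYP

namespace H25QSP

open Polynomial Matrix Pool.AVS

section Blocks

variable {L : Type} [Field L] {m : ℕ}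

theorem blk_det {G : Matrix (Fin (m + 1)) (Fin (m + 1)) L} {ε : L} {Ψ : Matrix (Fin m) (Fin m) L}
    (h : Blk G ε Ψ) : G.det = ε * Ψ.det := by
  obtain ⟨h0, h1, h2⟩ := h
  rw [det_succ_column_zero, Finset.sum_eq_single 0]
  · have h3 : G.submatrix (Fin.succAbove 0) Fin.succ = Ψ := by
      ext i j
      rw [submatrix_apply, Fin.succAbove_zero]
      exact h2 i j
    rw [h3, h0]
    simp
  · intro i _ hi
    obtain ⟨j, rfl⟩ := Fin.exists_succ_eq.2 hi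
    rw [(h1 j).2]
    ring
  · intro h
    exact absurd (Finset.mem_univ _) h

theorem blk_symm {G : Matrix (Fin (m + 1)) (Fin (m + 1)) L} {ε : L} {Ψ : Matrix (Fin m) (Fin m) L}
    (h : Blk G ε Ψ) (hΨ : Ψᵀ = Ψ) : Gᵀ = G := by
  obtain ⟨h0, h1, h2⟩ := h
  ext i j
  rw [transpose_apply]
  refine Fin.cases ?_ (fun i => ?_) i <;> refine Fin.cases ?_ (fun j => ?_) j
  · rfl
  · rw [(h1 j).1, (h1 j).2]
  · rw [(h1 i).1, (h1 i).2]
  · rw [h2, h2]
    exact congrFun (congrFun hΨ i) j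

theorem blk_mem {G : Matrix (Fin (m + 1)) (Fin (m + 1)) L} {ε : L} {Ψ : Matrix (Fin m) (Fin m) L}
    (h : Blk G ε Ψ) (O : ValuationSubring L) (hε : ε ∈ O) (hΨ : ∀ i j, Ψ i j ∈ O) :
    ∀ i j, G i j ∈ O := by
  obtain ⟨h0, h1, h2⟩ := h
  intro i j
  refine Fin.cases ?_ (fun i => ?_) i <;> refine Fin.cases ?_ (fun j => ?_) j
  · rw [h0]
    exact hε
  · rw [(h1 j).1]
    exact O.zero_mem
  · rw [(h1 i).2]
    exact O.zero_mem
  · rw [h2]
    exact hΨ i j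

/-- Scaling of the two blocks. -/
theorem blk_scale {G : Matrix (Fin (m + 1)) (Fin (m + 1)) L} {ε : L}
    {Ψ : Matrix (Fin m) (Fin m) L} (h : Blk G ε Ψ) {a b : L} (ha : a ≠ 0) (hb : b ≠ 0) :
    ∃ D : Matrix (Fin (m + 1)) (Fin (m + 1)) L, D.det ≠ 0 ∧
      Blk (Dᵀ * G * D) (a ^ 2 * ε) (b ^ 2 • Ψ) := by
  obtain ⟨h0, h1, h2⟩ := h
  refine ⟨diagonal (Fin.cons a fun _ => b), ?_, ?_, fun j => ⟨?_, ?_⟩, fun i j => ?_⟩
  · rw [det_diagonal, Finset.prod_ne_zero_iff]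
    intro i _
    refine Fin.cases ?_ (fun i => ?_) i
    · exact ha
    · exact hb
  all_goals rw [diagonal_transpose, mul_diagonal, diagonal_mul]
  · rw [h0]
    simp only [Fin.cons_zero]
    ring
  · rw [(h1 j).1]
    ring
  · rw [(h1 j).2]
    ring
  · rw [h2, Matrix.smul_apply, smul_eq_mul]
    simp only [Fin.cons_succ]
    ring

/-- A totally isotropic subspace of the second block. -/
theorem blk_spl {G : Matrix (Fin (m + 1)) (Fin (m + 1)) L} {ε : L} {Ψ : Matrix (Fin m) (Fin m) L}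
    (h : Blk G ε Ψ) {g : ℕ} (hΨ : SplM g Ψ) : SplM g G := by
  obtain ⟨h0, h1, h2⟩ := h
  obtain ⟨e, he, he1⟩ := hΨ
  refine ⟨fun i => Fin.cons 0 (e i), ?_, fun i j => ?_⟩
  · rw [Fintype.linearIndependent_iff] at he ⊢
    intro c hc i
    refine he c ?_ i
    ext k
    have h3 := congrFun hc k.succ
    simp only [Finset.sum_apply, Pi.smul_apply, Fin.cons_succ, Pi.zero_apply] at h3 ⊢
    exact h3
  · rw [dotProduct, Fin.sum_univ_succ]
    simp only [Fin.cons_zero, Fin.cons_succ, zero_mul, zero_add]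
    refine Eq.trans ?_ (he1 i j)
    rw [dotProduct]
    refine Finset.sum_congr rfl fun k _ => ?_
    congr 1
    rw [mulVec, mulVec, dotProduct, dotProduct, Fin.sum_univ_succ]
    simp only [Fin.cons_zero, Fin.cons_succ, mul_zero, zero_add, h2]

end Blocks

section Local

variable {L : Type} [Field L] (O : ValuationSubring L)

theorem ui_of_unit {a : O} (h : IsUnit a) : UI (O : Set L) (a : L) := by
  obtain ⟨u, rfl⟩ := h
  refine ⟨?_, (u : O).2, ?_⟩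
  · intro h0
    exact u.ne_zero (Subtype.ext h0)
  · have h1 : ((u : O) : L) * ((u⁻¹ : Oˣ) : O) = 1 := by
      rw [← MulMemClass.coe_mul, Units.mul_inv]
      rfl
    rw [inv_eq_of_mul_eq_one_right h1]
    exact ((u⁻¹ : Oˣ) : O).2

theorem ui_mul {x y : L} (hx : UI (O : Set L) x) (hy : UI (O : Set L) y) :
    UI (O : Set L) (x * y) :=
  ⟨mul_ne_zero hx.1 hy.1, O.mul_mem _ _ hx.2.1 hy.2.1, by
    rw [mul_inv]
    exact O.mul_mem _ _ hx.2.2 hy.2.2⟩

theorem ui_inv {x : L} (hx : UI (O : Set L) x) : UI (O : Set L) x⁻¹ :=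
  ⟨inv_ne_zero hx.1, hx.2.2, by
    rw [inv_inv]
    exact hx.2.1⟩

theorem tau_oL {γ : O[X]} (hγ : γ.Monic) (q : O[X]) :
    tau (oL O γ) (oL O q) = (tau γ q : O) := by
  unfold tau
  rw [hγ.natDegree_map, ← map_modByMonic _ hγ, coeff_map]
  rfl

theorem tau_C {f : L[X]} (a : L) (p : L[X]) : tau f (C a * p) = a * tau f p := by
  unfold tau
  rw [← smul_eq_C_mul, smul_modByMonic, coeff_smul, smul_eq_mul]

theorem gr_C {f : L[X]} (n : ℕ) (a : L) (p : L[X]) : gr 0 n f (C a * p) = a • gr 0 n f p := by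
  ext i j
  show tau f (X ^ ((i : ℕ) + (j : ℕ) + 0) * (C a * p)) = a * tau f (X ^ ((i : ℕ) + (j : ℕ) + 0) * p)
  rw [← tau_C]
  congr 1
  ring

theorem gr_symm {f : L[X]} (n : ℕ) (p : L[X]) : (gr 0 n f p)ᵀ = gr 0 n f p := by
  ext i j
  show tau f (X ^ ((j : ℕ) + (i : ℕ) + 0) * p) = tau f (X ^ ((i : ℕ) + (j : ℕ) + 0) * p)
  rw [add_comm (j : ℕ)]

theorem norm_C {f : L[X]} (hf : f.Monic) (a : L) (q : L[X]) :
    Algebra.norm L (AdjoinRoot.mk f (C a * q)) =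
      a ^ f.natDegree * Algebra.norm L (AdjoinRoot.mk f q) := by
  rw [map_mul, map_mul, AdjoinRoot.mk_C, ← AdjoinRoot.algebraMap_eq, Algebra.norm_algebraMap,
    Module.finrank_eq_card_basis (AdjoinRoot.powerBasisAux' hf), Fintype.card_fin]

/-- `γ(c)` is a unit. -/
theorem eval_unit {g : ℕ} {γ : O[X]} (hγ : OkL O g γ) (c : O) :
    IsUnit (γ.eval c) := by
  obtain ⟨h1, h2, h3⟩ := hγ
  rw [← IsLocalRing.residue_ne_zero_iff_isUnit]
  intro h4
  have h5 : (rd O γ).IsRoot (IsLocalRing.residue O c) := by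
    rw [IsRoot.def, eval_map, eval₂_hom, h4]
  have h6 := degree_eq_one_of_irreducible_of_root h3 h5
  have h7 : (rd O γ).natDegree = 1 := natDegree_eq_of_degree_eq_some h6
  rw [h1.natDegree_map, h2] at h7
  omega

end Local

end H25QSP

open Polynomial Matrix Pool.AVS H25QSP in
/-- **QSP.** -/
theorem qsp : QSPStmt := by
  have hUNI := uni
  have hNON := non
  have hDEC := dec
  have hSPC := spc
  have hNMU := nmu
  intro L _ O π hL g c γ hg hOk h x hcop hN ⟨n, p, hp, hdvd, hn, hx2⟩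
  obtain ⟨hγ, hdeg, hirr⟩ := id hOk
  have hγL : (oL O γ).Monic := hγ.map _
  have hdegL : (oL O γ).natDegree = 2 * g := by rw [hγ.natDegree_map, hdeg]
  have hfL : oL O ((X - C c) * γ) = (X - C (c : L)) * oL O γ := by
    show ((X - C c) * γ).map (algebraMap O L) = _
    rw [Polynomial.map_mul, Polynomial.map_sub, map_X, map_C]
    rfl
  rw [hfL] at hcop hN ⊢
  have hu0 := eval_unit O hOk c
  have hev : (oL O γ).eval (c : L) = ((γ.eval c : O) : L) := by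
    show (γ.map (algebraMap O L)).eval (algebraMap O L c) = _
    rw [eval_map, eval₂_hom]
    rfl
  have hu := ui_of_unit O hu0
  obtain ⟨γc, hγc⟩ : ∃ γc : L, γc = (oL O γ).eval (c : L) := ⟨_, rfl⟩
  rw [← hev, ← hγc] at hu
  rw [← hγc] at hx2
  -- division by `X - c` modulo `γ`
  obtain ⟨p1, hp1⟩ : ∃ p1 : O[X], γ ∣ p - p1 * (C c - X) := by
    obtain ⟨v, hv⟩ := hu0
    have h1 : (X - C c) ∣ γ - C (γ.eval c) := X_sub_C_dvd_sub_C_eval
    obtain ⟨q, hq⟩ := h1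
    refine ⟨p * q * C ((v⁻¹ : Oˣ) : O), p * C ((v⁻¹ : Oˣ) : O), ?_⟩
    have h2 : C (γ.eval c) * C ((v⁻¹ : Oˣ) : O) = 1 := by
      rw [← C_mul, ← hv, Units.mul_inv, C_1]
    linear_combination (-p * C ((v⁻¹ : Oˣ) : O)) * hq - p * h2
  have hp1L : oL O γ ∣ oL O p - oL O p1 * (C (c : L) - X) := by
    have h1 := Polynomial.map_dvd (algebraMap O L) hp1
    rw [Polynomial.map_sub, Polynomial.map_mul, Polynomial.map_sub, map_X, map_C] at h1
    exact h1
  -- norms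
  obtain ⟨Np, hNp⟩ : ∃ Np, Np = Algebra.norm L (AdjoinRoot.mk (oL O γ) (oL O p)) := ⟨_, rfl⟩
  have hNpu : UI (O : Set L) Np := hNp ▸ norm_unit hγ hp
  have hNp1 : Algebra.norm L (AdjoinRoot.mk (oL O γ) (oL O p1)) * γc = Np := by
    rw [hγc, ← hNMU.2.2.1 L (c : L) (oL O γ) hγL, ← map_mul, ← map_mul, hNp]
    congr 1
    exact (AdjoinRoot.mk_eq_mk.2 hp1L).symm
  have hNh : h.eval (c : L) * ((π ^ n) ^ (2 * g) * Np) =
      Algebra.norm L (AdjoinRoot.mk ((X - C (c : L)) * oL O γ) h) := by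
    rw [hNMU.1 L _ _ _ (monic_X_sub_C _) hγL, hNMU.2.1, hNp, ← hdegL, ← norm_C hγL]
    congr 2
    exact (AdjoinRoot.mk_eq_mk.2 hdvd).symm
  obtain ⟨r, hr⟩ := hN
  rw [← hNh] at hr
  have hhc : h.eval (c : L) ≠ 0 := by
    intro h0
    obtain ⟨a, b, hab⟩ := hcop
    have h1 := congrArg (fun q => q.eval (c : L)) hab
    simp only [eval_add, eval_mul, eval_sub, eval_X, eval_C, sub_self, zero_mul, mul_zero,
      h0, add_zero, eval_one] at h1
    exact zero_ne_one h1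
  have hπ := hL.pi_ne
  have hπn : π ^ n ≠ 0 := zpow_ne_zero _ hπ
  obtain ⟨s, hs⟩ : ∃ s : L, h.eval (c : L) * Np = s ^ 2 := by
    refine ⟨r / (π ^ n) ^ g, ?_⟩
    rw [div_pow, eq_div_iff (pow_ne_zero 2 (pow_ne_zero _ hπn)), ← pow_mul]
    linear_combination hr
  have hs0 : s ≠ 0 := by
    rintro rfl
    exact mul_ne_zero hhc hNpu.1 (by rw [hs]; ring)
  obtain ⟨j, hj1, hj2⟩ := hL.arch s hs0
  have hπj : π ^ j ≠ 0 := zpow_ne_zero _ hπ
  obtain ⟨e, he⟩ : ∃ e, e = s / π ^ j := ⟨_, rfl⟩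
  have heu : UI (O : Set L) e := by
    rw [he]
    exact ⟨div_ne_zero hs0 hπj, hj1, hj2⟩
  have hse : s = e * π ^ j := by rw [he, div_mul_cancel₀ _ hπj]
  have hhc2 : h.eval (c : L) = (π ^ j) ^ 2 * (e ^ 2 * Np⁻¹) := by
    field_simp [hNpu.1]
    rw [hs, hse]
    ring
  have hεu : UI (O : Set L) (e ^ 2 * Np⁻¹ * γc) := by
    rw [pow_two]
    exact ui_mul O (ui_mul O (ui_mul O heu heu) (ui_inv O hNpu)) hu
  -- the matrix `Ψ`
  obtain ⟨Ψ, hΨ⟩ : ∃ Ψ, Ψ = gr 0 (2 * g) (oL O γ) (-oL O p1) := ⟨_, rfl⟩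
  have hΨs : Ψᵀ = Ψ := by rw [hΨ, gr_symm]
  have hΨO : ∀ i j, Ψ i j ∈ O := by
    intro i j
    rw [hΨ]
    show tau (oL O γ) (X ^ ((i : ℕ) + (j : ℕ) + 0) * (-oL O p1)) ∈ O
    have h1 : (X ^ ((i : ℕ) + (j : ℕ) + 0) * (-oL O p1) : L[X]) =
        oL O (X ^ ((i : ℕ) + (j : ℕ) + 0) * (-p1)) := by
      show _ = (X ^ ((i : ℕ) + (j : ℕ) + 0) * (-p1)).map (algebraMap O L)
      rw [Polynomial.map_mul, Polynomial.map_pow, map_X, Polynomial.map_neg]
    rw [h1, tau_oL O hγ]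
    exact (tau γ _).2
  have hΨd : (-1) ^ g * Ψ.det = Np / γc := by
    rw [hΨ, (gdt L (2 * g) (oL O γ) hγL hdegL).2, ← hNp1, mul_div_assoc, div_self hu.1, mul_one,
      show (-oL O p1 : L[X]) = C (-1) * oL O p1 by rw [C_neg, C_1]; ring, norm_C hγL, hdegL,
      (show Even (2 * g) from ⟨g, by ring⟩).neg_one_pow, one_mul, ← mul_assoc, ← pow_add]
    have h1 : 2 * g * (2 * g - 1) / 2 = g * (2 * g - 1) := by
      rw [mul_assoc, Nat.mul_div_cancel_left _ (by norm_num)]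
    rw [h1, Even.neg_one_pow, one_mul]
    refine ⟨g * g, ?_⟩
    obtain ⟨k, rfl⟩ : ∃ k, g = k + 1 := ⟨g - 1, by omega⟩
    have h2 : 2 * (k + 1) - 1 = 2 * k + 1 := by omega
    rw [h2]
    ring
  have hΨu : UI (O : Set L) Ψ.det := by
    have h1 : Ψ.det = (-1) ^ g * (Np * γc⁻¹) := by
      rw [← div_eq_mul_inv, ← hΨd, ← mul_assoc, ← mul_pow]
      norm_num
    rw [h1]
    refine ui_mul O ?_ (ui_mul O hNpu (ui_inv O hu))
    rcases neg_one_pow_eq_or L g with h2 | h2 <;> rw [h2]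
    · exact ⟨one_ne_zero, O.one_mem, by rw [inv_one]; exact O.one_mem⟩
    · exact ⟨neg_ne_zero.2 one_ne_zero, O.neg_mem _ O.one_mem, by
        rw [inv_neg, inv_one]
        exact O.neg_mem _ O.one_mem⟩
  -- decomposition
  obtain ⟨a, G, ha, haG, hG⟩ := hDEC L (2 * g) (c : L) (oL O γ) h (C (π ^ n) * (-oL O p1)) hγL
    hdegL (hγc ▸ hu.1) (by
      obtain ⟨q1, hq1⟩ := hp1L
      obtain ⟨q2, hq2⟩ := hdvd
      exact ⟨q2 + C (π ^ n) * q1, by linear_combination hq2 + C (π ^ n) * hq1⟩)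
  have hsp1 : SplM g (gr 0 (2 * g + 1) ((X - C (c : L)) * oL O γ) h) ↔ SplM g G := by
    rw [← haG]
    exact ((hSPC L g (2 * g + 1) _ a 1 ha one_ne_zero).1).symm
  rw [gr_C, ← hΨ, ← hγc] at hG
  obtain ⟨m, hm⟩ := Int.even_or_odd' n
  obtain ⟨D, hD, hB⟩ := blk_scale hG (inv_ne_zero hπj) (inv_ne_zero (zpow_ne_zero m hπ))
  have hsp2 : SplM g G ↔ SplM g (Dᵀ * G * D) := ((hSPC L g (2 * g + 1) G D 1 hD one_ne_zero).1).symm
  rw [hsp1, hsp2]
  obtain ⟨G', hG'⟩ : ∃ G', G' = Dᵀ * G * D := ⟨_, rfl⟩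
  rw [← hG'] at hB ⊢
  have hε : (π ^ j)⁻¹ ^ 2 * (h.eval (c : L) * γc) = e ^ 2 * Np⁻¹ * γc := by
    rw [hhc2]
    field_simp
  rw [hε] at hB
  rcases hm with hm | hm
  · -- even valuation
    have hx1 : x.1 = 0 := by
      rw [← hn, hm]
      push_cast
      rw [show (2 : ZMod 2) = 0 from rfl, zero_mul]
    have hπm : (π ^ m)⁻¹ ^ 2 • π ^ n • Ψ = Ψ := by
      rw [smul_smul, hm, mul_comm 2 m, _root_.zpow_mul]
      have h1 : (π ^ m)⁻¹ ^ 2 * (π ^ m) ^ (2 : ℤ) = 1 := by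
        rw [zpow_ofNat, ← mul_pow, inv_mul_cancel₀ (zpow_ne_zero m hπ), one_pow]
      rw [h1, one_smul]
    rw [hπm] at hB
    refine iff_of_true ?_ ?_
    · refine (hUNI L O π hL (2 * g + 1) G' (blk_symm hB hΨs) (blk_mem hB O hεu.2.1 hΨO) ?_).1 g rfl
      rw [blk_det hB]
      exact ui_mul O hεu hΨu
    · intro h1
      rw [h1] at hx1
      exact absurd hx1 (by decide)
  · have hx1 : x.1 = 1 := by
      rw [← hn, hm]
      push_cast
      rw [show (2 : ZMod 2) = 0 from rfl, zero_mul, zero_add]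
    have hπm : (π ^ m)⁻¹ ^ 2 • π ^ n • Ψ = π • Ψ := by
      rw [smul_smul, hm, zpow_add₀ hπ, zpow_one, mul_comm 2 m, _root_.zpow_mul]
      have h1 : (π ^ m)⁻¹ ^ 2 * ((π ^ m) ^ (2 : ℤ) * π) = π := by
        rw [zpow_ofNat, ← mul_assoc, ← mul_pow, inv_mul_cancel₀ (zpow_ne_zero m hπ), one_pow,
          one_mul]
      rw [h1]
    rw [hπm] at hB
    have hsq : IsSquare ((-1) ^ g * Ψ.det) ↔ x.2 = 0 := by
      rw [hx2, hx1, hΨd, show (1 : ZMod 2).val = 1 from rfl, pow_one, hhc2]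
      have h1 : (π ^ j) ^ 2 * (e ^ 2 * Np⁻¹) * γc = (π ^ j * e) ^ 2 * (Np / γc)⁻¹ := by
        field_simp
      rw [h1]
      constructor
      · rintro ⟨y, hy⟩
        refine ⟨π ^ j * e * y⁻¹, ?_⟩
        rw [hy]
        field_simp
      · rintro ⟨y, hy⟩
        refine ⟨π ^ j * e * y⁻¹, ?_⟩
        have h2 : Np / γc = (π ^ j * e) ^ 2 * (y * y)⁻¹ := by
          rw [← hy, mul_inv, inv_inv, ← mul_assoc,
            mul_inv_cancel₀ (pow_ne_zero 2 (mul_ne_zero hπj heu.1)), one_mul]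
        rw [h2]
        field_simp
    constructor
    · intro h1 h2
      have h3 := hsq.1 (hNON L O π hL g _ Ψ G' hεu hΨs hΨO hΨu hB h1)
      rw [h2] at h3
      exact absurd h3 (by decide)
    · intro h1
      have h3 : x.2 = 0 := by
        obtain ⟨x1, x2⟩ := x
        simp only at hx1
        subst hx1
        fin_cases x2
        · rfl
        · exact absurd rfl h1
      have h4 := (hUNI L O π hL (2 * g) Ψ hΨs hΨO hΨu).2 g rfl (hsq.2 h3)
      refine blk_spl hB ?_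
      exact ((hSPC L g (2 * g) Ψ 1 π (by rw [det_one]; exact one_ne_zero) hπ).2).2 h4

end Pool.HYP
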