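import Pool.Agent.H41.HYP.S1

/-!
# HYP: module DIST

If the pair of forms attached to `h`, a class with square norm, has a common isotropic subspace of
dimension `g`, then the class of `h` is trivial.
-/

set_option autoImplicit false

namespace Pool.HYP

namespace H25DIST

open Polynomial Matrix Module

/-- The linear functional `τ` on the algebra. -/
noncomputable def tauL {K : Type} [Field K] {f : K[X]} (hf : f.Monic) : AdjoinRoot f →ₗ[K] K :=
  (lcoeff K (f.natDegree - 1)).comp (AdjoinRoot.modByMonicHom hf)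

theorem tauL_mk {K : Type} [Field K] {f : K[X]} (hf : f.Monic) (p : K[X]) :
    tauL hf (AdjoinRoot.mk f p) = tau f p := by
  unfold tauL tau
  rw [LinearMap.comp_apply, AdjoinRoot.modByMonicHom_mk, lcoeff_apply]

section Field

variable {K A : Type} [Field K] [Field A] [Algebra K A]

/-- A nonzero subspace stable under a generator is everything. -/
theorem stab_top (x : A) (hx : Algebra.adjoin K {x} = ⊤) (U : Submodule K A) (hU : U ≠ ⊥)
    (h : ∀ v ∈ U, x * v ∈ U) : U = ⊤ := by
  obtain ⟨v, hv, hv0⟩ := (Submodule.ne_bot_iff U).1 hU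
  have h1 : ∀ a ∈ Algebra.adjoin K {x}, ∀ w ∈ U, a * w ∈ U := by
    intro a ha
    induction ha using Algebra.adjoin_induction with
    | mem y hy =>
      intro w hw
      rw [Set.mem_singleton_iff.1 hy]
      exact h w hw
    | algebraMap r =>
      intro w hw
      rw [← Algebra.smul_def]
      exact U.smul_mem r hw
    | add a b _ _ ha hb =>
      intro w hw
      rw [add_mul]
      exact U.add_mem (ha w hw) (hb w hw)
    | mul a b _ _ ha hb =>
      intro w hw
      rw [mul_assoc]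
      exact ha _ (hb w hw)
  refine eq_top_iff.2 fun b _ => ?_
  have h2 := h1 (b * v⁻¹) (by rw [hx]; trivial) v hv
  rwa [mul_assoc, inv_mul_cancel₀ hv0, mul_one] at h2

variable [FiniteDimensional K A]

/-- The chain of subspaces. -/
theorem chain (x : A) (hx0 : x ≠ 0) (hx : Algebra.adjoin K {x} = ⊤) :
    ∀ (m : ℕ) (U : Submodule K A), finrank K U = m + 1 →
      finrank K ↥(U ⊔ U.map (LinearMap.mulLeft K x)) ≤ m + 2 → U ≠ ⊤ →
      ∃ l : A, l ≠ 0 ∧ ∀ k ≤ m, x ^ k * l ∈ U
  | 0, U, hU, _, _ => by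
    have h1 : U ≠ ⊥ := by
      rintro rfl
      rw [finrank_bot] at hU
      omega
    obtain ⟨v, hv, hv0⟩ := (Submodule.ne_bot_iff U).1 h1
    refine ⟨v, hv0, fun k hk => ?_⟩
    rw [Nat.le_zero.1 hk, pow_zero, one_mul]
    exact hv
  | m + 1, U, hU, hUx, hT => by
    obtain ⟨V, hV⟩ : ∃ V, V = U ⊓ U.comap (LinearMap.mulLeft K x) := ⟨_, rfl⟩
    have hinj : Function.Injective (LinearMap.mulLeft K x) := by
      intro a b hab
      simp only [LinearMap.mulLeft_apply] at hab
      exact mul_left_cancel₀ hx0 hab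
    have hm1 : ∀ W : Submodule K A, finrank K ↥(W.map (LinearMap.mulLeft K x)) = finrank K W :=
      fun W => (LinearEquiv.finrank_eq (Submodule.equivMapOfInjective _ hinj W)).symm
    have hVm : V.map (LinearMap.mulLeft K x) = U ⊓ U.map (LinearMap.mulLeft K x) := by
      ext a
      rw [hV, Submodule.mem_inf]
      constructor
      · rintro ⟨b, hb, rfl⟩
        exact ⟨hb.2, ⟨b, hb.1, rfl⟩⟩
      · rintro ⟨ha, ⟨b, hb, rfl⟩⟩
        exact ⟨b, ⟨hb, ha⟩, rfl⟩
    have h1 := Submodule.finrank_sup_add_finrank_inf_eq U (U.map (LinearMap.mulLeft K x))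
    rw [hm1, ← hVm, hm1, hU] at h1
    have hVU : V ≤ U := hV ▸ inf_le_left
    have hVx : ∀ v ∈ V, x * v ∈ U := fun v hv => by
      rw [hV] at hv
      exact hv.2
    have h2 : finrank K V ≠ m + 1 + 1 := by
      intro h2
      have h3 : V = U := Submodule.eq_of_le_of_finrank_eq hVU (by rw [h2, hU])
      refine hT (stab_top x hx U ?_ fun v hv => hVx v (h3 ▸ hv))
      rintro rfl
      rw [finrank_bot] at hU
      omega
    have h3 : finrank K V ≤ m + 1 + 1 := hU ▸ Submodule.finrank_mono hVU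
    have h4 : finrank K V = m + 1 := by omega
    have h5 : finrank K ↥(V ⊔ V.map (LinearMap.mulLeft K x)) ≤ m + 2 := by
      have h6 : V ⊔ V.map (LinearMap.mulLeft K x) ≤ U := by
        refine sup_le hVU ?_
        rintro _ ⟨v, hv, rfl⟩
        exact hVx v hv
      exact hU ▸ Submodule.finrank_mono h6
    obtain ⟨l, hl, hl1⟩ := chain x hx0 hx m V h4 h5 fun h => hT (top_le_iff.1 (h ▸ hVU))
    refine ⟨l, hl, fun k hk => ?_⟩
    rcases Nat.lt_or_ge m k with h7 | h7
    · obtain rfl : k = m + 1 := by omega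
      rw [pow_succ', mul_assoc]
      exact hVx _ (hl1 m le_rfl)
    · exact hVU (hl1 k h7)

end Field

/-- A polynomial of degree less than `n` with `τ(x^k p) = 0` for `k < n - 1`. -/
theorem const {K : Type} [Field K] {f : K[X]} (hf : f.Monic) {n : ℕ} (hn : f.natDegree = n + 1)
    (p : K[X]) (hp : p.natDegree < n + 1) (h : ∀ k < n, tau f (X ^ k * p) = 0) :
    p.natDegree = 0 := by
  by_contra hd
  have h1 : p ≠ 0 := by
    rintro rfl
    exact hd natDegree_zero
  have h2 := h (n - p.natDegree) (by omega)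
  have h3 : (X ^ (n - p.natDegree) * p).natDegree = n := by
    rw [natDegree_mul (pow_ne_zero _ X_ne_zero) h1, natDegree_X_pow]
    omega
  unfold tau at h2
  rw [(modByMonic_eq_self_iff hf).2 (degree_lt_degree (by rw [h3, hn]; omega)), hn,
    Nat.add_sub_cancel] at h2
  have h4 : (X ^ (n - p.natDegree) * p).leadingCoeff = 0 := by
    rw [leadingCoeff, h3]
    exact h2
  rw [leadingCoeff_eq_zero] at h4
  exact mul_ne_zero (pow_ne_zero _ X_ne_zero) h1 h4

end H25DIST

open Polynomial Matrix Module H25DIST in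
/-- **DIST.** -/
theorem dist : DISTStmt := by
  intro K _ g f h G S hg hf hn hirr hN hG ⟨e, he1, he2⟩ hiso
  have : Fact (Irreducible f) := ⟨hirr⟩
  obtain ⟨x, hx⟩ : ∃ x, x = AdjoinRoot.root f := ⟨_, rfl⟩
  have hfin : FiniteDimensional K (AdjoinRoot f) :=
    Module.Finite.of_basis (AdjoinRoot.powerBasisAux' hf)
  have hdim : finrank K (AdjoinRoot f) = 2 * g + 1 := by
    rw [finrank_eq_card_basis (AdjoinRoot.powerBasisAux' hf), Fintype.card_fin, hn]
  have hadj : Algebra.adjoin K {x} = ⊤ := by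
    rw [hx]
    exact AdjoinRoot.adjoinRoot_eq_top
  have hmx : AdjoinRoot.mk f X = x := by rw [hx, AdjoinRoot.mk_X]
  -- the functional
  obtain ⟨T, hT⟩ : ∃ T : AdjoinRoot f →ₗ[K] K, ∀ p, T (AdjoinRoot.mk f p) = tau f p :=
    ⟨tauL hf, tauL_mk hf⟩
  obtain ⟨H, hH⟩ : ∃ H, H = AdjoinRoot.mk f h := ⟨_, rfl⟩
  obtain ⟨u, hu⟩ : ∃ u : Fin (2 * g + 1) → AdjoinRoot f, ∀ i, u i = AdjoinRoot.mk f (e i) :=
    ⟨_, fun _ => rfl⟩
  have hTG : ∀ i j, T (u i * u j * H) = G i j := fun i j => by
    rw [hu, hu, hH, ← map_mul, ← map_mul, hT, he1]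
  have hTS : ∀ i j, T (x * (u i * u j * H)) = S i j := fun i j => by
    rw [hu, hu, hH, ← hmx, ← map_mul, ← map_mul, ← map_mul, hT, he2]
  have hH0 : H ≠ 0 := by
    intro h0
    apply hG
    have : G = 0 := by
      ext i j
      rw [← hTG, h0, mul_zero, map_zero]
      rfl
    rw [this, det_zero]
  -- linear independence
  have hsum : ∀ (c : Fin (2 * g + 1) → K) (i : Fin (2 * g + 1)),
      T (u i * (∑ j, c j • u j) * H) = (G *ᵥ c) i := by
    intro c i
    rw [Finset.mul_sum, Finset.sum_mul, map_sum, mulVec, dotProduct]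
    refine Finset.sum_congr rfl fun j _ => ?_
    rw [mul_smul_comm, smul_mul_assoc, map_smul, hTG, smul_eq_mul, mul_comm]
  have hli : LinearIndependent K u := by
    rw [Fintype.linearIndependent_iff]
    intro c hc
    have h1 : G *ᵥ c = 0 := by
      ext i
      rw [← hsum, hc, mul_zero, zero_mul, map_zero]
      rfl
    have h2 := eq_zero_of_mulVec_eq_zero hG h1
    exact fun i => congrFun h2 i
  have hgn : g ≤ 2 * g + 1 := by omega
  obtain ⟨U, hU⟩ : ∃ U, U = Submodule.span K (Set.range (u ∘ Fin.castLE hgn)) := ⟨_, rfl⟩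
  have hUd : finrank K U = g := by
    rw [hU, finrank_span_eq_card (hli.comp _ (Fin.castLE_injective hgn)), Fintype.card_fin]
  -- the orthogonal
  obtain ⟨Φ, hΦ⟩ : ∃ Φ : AdjoinRoot f →ₗ[K] (Fin g → K),
      ∀ a i, Φ a i = T (u (Fin.castLE hgn i) * a * H) :=
    ⟨LinearMap.pi fun i => T.comp ((LinearMap.mulRight K H).comp
      (LinearMap.mulLeft K (u (Fin.castLE hgn i)))), fun a i => rfl⟩
  have hΦs : Function.Surjective Φ := by
    intro t
    obtain ⟨t', ht'⟩ : ∃ t' : Fin (2 * g + 1) → K, ∀ i : Fin g, t' (Fin.castLE hgn i) = t i :=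
      ⟨fun i => if hi : (i : ℕ) < g then t ⟨i, hi⟩ else 0, fun i => by
        simp [i.is_lt]⟩
    refine ⟨∑ j, (G⁻¹ *ᵥ t') j • u j, ?_⟩
    ext i
    rw [hΦ, hsum, mulVec_mulVec, Matrix.mul_nonsing_inv _ (isUnit_iff_ne_zero.2 hG), one_mulVec,
      ht']
  have hker : finrank K (LinearMap.ker Φ) = g + 1 := by
    have h1 := LinearMap.finrank_range_add_finrank_ker Φ
    rw [LinearMap.range_eq_top.2 hΦs, finrank_top, hdim, finrank_fin_fun] at h1
    omega
  have hUU : ∀ a ∈ U, ∀ b ∈ U, T (a * b * H) = 0 ∧ T (x * (a * b * H)) = 0 := by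
    intro a ha b hb
    rw [hU] at ha hb
    induction ha using Submodule.span_induction with
    | mem a ha =>
      obtain ⟨i, rfl⟩ := ha
      induction hb using Submodule.span_induction with
      | mem b hb =>
        obtain ⟨j, rfl⟩ := hb
        rw [Function.comp_apply, Function.comp_apply, hTG, hTS]
        exact hiso _ _ i.is_lt j.is_lt
      | zero => simp
      | add b c _ _ hb hc =>
        constructor
        · rw [mul_add, add_mul, map_add, hb.1, hc.1, add_zero]
        · rw [mul_add, add_mul, mul_add, map_add, hb.2, hc.2, add_zero]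
      | smul r b _ hb =>
        constructor
        · rw [mul_smul_comm, smul_mul_assoc, map_smul, hb.1, smul_zero]
        · rw [mul_smul_comm, smul_mul_assoc, mul_smul_comm, map_smul, hb.2, smul_zero]
    | zero => simp
    | add a c _ _ ha hc =>
      constructor
      · rw [add_mul, add_mul, map_add, ha.1, hc.1, add_zero]
      · rw [add_mul, add_mul, mul_add, map_add, ha.2, hc.2, add_zero]
    | smul r a _ ha =>
      constructor
      · rw [smul_mul_assoc, smul_mul_assoc, map_smul, ha.1, smul_zero]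
      · rw [smul_mul_assoc, smul_mul_assoc, mul_smul_comm, map_smul, ha.2, smul_zero]
  have huU : ∀ i : Fin g, u (Fin.castLE hgn i) ∈ U := fun i => by
    rw [hU]
    exact Submodule.subset_span ⟨i, rfl⟩
  have hle : U ⊔ U.map (LinearMap.mulLeft K x) ≤ LinearMap.ker Φ := by
    refine sup_le (fun a ha => ?_) ?_
    · rw [LinearMap.mem_ker]
      ext i
      rw [hΦ]
      exact (hUU _ (huU i) a ha).1
    · rintro _ ⟨a, ha, rfl⟩
      rw [LinearMap.mem_ker]
      ext i
      rw [hΦ, LinearMap.mulLeft_apply]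
      have h1 := (hUU _ (huU i) a ha).2
      rw [show x * (u (Fin.castLE hgn i) * a * H) = u (Fin.castLE hgn i) * (x * a) * H by ring]
        at h1
      exact h1
  have hfr : finrank K ↥(U ⊔ U.map (LinearMap.mulLeft K x)) ≤ g + 1 :=
    hker ▸ Submodule.finrank_mono hle
  have hx0 : x ≠ 0 := by
    intro h0
    rw [← hmx, AdjoinRoot.mk_eq_zero] at h0
    have h1 := natDegree_le_of_dvd h0 X_ne_zero
    rw [hn, natDegree_X] at h1
    omega
  obtain ⟨m, rfl⟩ : ∃ m, g = m + 1 := ⟨g - 1, by omega⟩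
  obtain ⟨l, hl0, hl⟩ := chain x hx0 hadj m U hUd hfr (by
    intro h1
    rw [h1, finrank_top, hdim] at hUd
    omega)
  -- the product `h l²` is a constant
  obtain ⟨l', hl'⟩ := AdjoinRoot.mk_surjective (g := f) l
  have hf1 : f ≠ 1 := by
    rintro rfl
    rw [natDegree_one] at hn
    omega
  obtain ⟨p, hp⟩ : ∃ p, p = (h * l' ^ 2) %ₘ f := ⟨_, rfl⟩
  have hpm : AdjoinRoot.mk f p = H * l ^ 2 := by
    have h1 : AdjoinRoot.mk f p = AdjoinRoot.mk f (h * l' ^ 2) := by
      rw [AdjoinRoot.mk_eq_mk, hp]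
      have h2 := modByMonic_add_div (h * l' ^ 2) f
      exact ⟨-((h * l' ^ 2) /ₘ f), by linear_combination h2⟩
    rw [h1, map_mul, map_pow, hl', hH]
  have hpd : p.natDegree < 2 * (m + 1) + 1 := by
    rw [hp, ← hn]
    exact natDegree_modByMonic_lt _ hf hf1
  have hpc : p.natDegree = 0 := by
    refine const hf hn p hpd fun k hk => ?_
    rw [← hT, map_mul, map_pow, hmx, hpm]
    rcases Nat.lt_or_ge (m + m) k with h1 | h1
    · obtain rfl : k = m + m + 1 := by omega
      have h2 := (hUU _ (hl m le_rfl) _ (hl m le_rfl)).2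
      rw [show x * (x ^ m * l * (x ^ m * l) * H) = x ^ (m + m + 1) * (H * l ^ 2) by ring] at h2
      exact h2
    · obtain ⟨i, j, hi, hj, rfl⟩ : ∃ i j, i ≤ m ∧ j ≤ m ∧ k = i + j :=
        ⟨min k m, k - min k m, by omega, by omega, by omega⟩
      have h2 := (hUU _ (hl i hi) _ (hl j hj)).1
      rw [show x ^ i * l * (x ^ j * l) * H = x ^ (i + j) * (H * l ^ 2) by ring] at h2
      exact h2
  obtain ⟨c, hc⟩ : ∃ c : K, p = C c := ⟨_, eq_C_of_natDegree_eq_zero hpc⟩
  have hHl : H * l ^ 2 = algebraMap K (AdjoinRoot f) c := by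
    rw [← hpm, hc, AdjoinRoot.mk_C, AdjoinRoot.algebraMap_eq]
  have hc0 : c ≠ 0 := by
    rintro rfl
    rw [map_zero] at hHl
    exact mul_ne_zero hH0 (pow_ne_zero 2 hl0) hHl
  -- `c` is a square
  obtain ⟨r, hr⟩ := hN
  have h1 : Algebra.norm K H * (Algebra.norm K l) ^ 2 = c ^ (2 * (m + 1) + 1) := by
    rw [← map_pow, ← map_mul, hHl, Algebra.norm_algebraMap, hdim]
  rw [hH, hr] at h1
  obtain ⟨b, hb⟩ : ∃ b : K, c = b ^ 2 := by
    refine ⟨r * Algebra.norm K l / c ^ (m + 1), ?_⟩
    rw [div_pow, eq_div_iff (pow_ne_zero 2 (pow_ne_zero _ hc0))]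
    linear_combination -h1
  obtain ⟨s, hs⟩ := AdjoinRoot.mk_surjective (g := f) (algebraMap K (AdjoinRoot f) b * l⁻¹)
  refine ⟨s, ?_⟩
  rw [← AdjoinRoot.mk_eq_zero, map_sub, map_pow, hs, ← hH, mul_pow, ← map_pow, ← hb, ← hHl]
  field_simp
  ring

end Pool.HYP
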